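import Pool.Agent.Y375.MI.Ext

set_option autoImplicit false

/-!
# If `𝔡 = 𝔲 = ℵ₁`, every countable ideal independent family extends to a maximal one of size `ℵ₁`
-/

namespace Pool.Agent.Results.MP_5eed22_lc.ExtensionOfCountable

open Set Cardinal Filter

/-- `I` is ideal independent: its members are infinite subsets of `ℕ`, and for every member `A` and
every finite set `F` of other members the set `A \ ⋃ F` is infinite. -/
def IdealIndependent (I : Set (Set ℕ)) : Prop :=
  (∀ A ∈ I, A.Infinite) ∧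
    ∀ A ∈ I, ∀ F : Set (Set ℕ), F.Finite → F ⊆ I \ {A} → (A \ ⋃₀ F).Infinite

/-- `I` is a maximal ideal independent family. -/
def MaximalIdealIndependent (I : Set (Set ℕ)) : Prop :=
  IdealIndependent I ∧ ∀ J : Set (Set ℕ), IdealIndependent J → I ⊆ J → J = I

/-- `𝔰_mm`: the least cardinality of an infinite maximal ideal independent family. -/
noncomputable def smm : Cardinal.{0} :=
  sInf {κ | ∃ I : Set (Set ℕ), I.Infinite ∧ MaximalIdealIndependent I ∧ #I = κ}

/-- The dominating number `𝔡`. -/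
noncomputable def dNumber : Cardinal.{0} :=
  sInf {κ | ∃ D : Set (ℕ → ℕ), (∀ f : ℕ → ℕ, ∃ g ∈ D, ∀ᶠ n in atTop, f n ≤ g n) ∧ #D = κ}

/-- `B` is a base of the ultrafilter `p`: its members belong to `p`, and every member of `p`
almost contains a member of `B`. -/
def IsBase (p : Ultrafilter ℕ) (B : Set (Set ℕ)) : Prop :=
  (∀ b ∈ B, b ∈ p) ∧ ∀ U ∈ p, ∃ b ∈ B, (b \ U).Finite

/-- The ultrafilter number `𝔲`: the least cardinality of a base of a nonprincipal ultrafilter. -/
noncomputable def uNumber : Cardinal.{0} :=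
  sInf {κ | ∃ p : Ultrafilter ℕ, (∀ n : ℕ, {n} ∉ p) ∧ ∃ B : Set (Set ℕ), IsBase p B ∧ #B = κ}

/-- **Main theorem (ZFC).** Assume `𝔡 = 𝔲 = ℵ₁`.
1. `𝔰_mm = ℵ₁` (the question).
2. Every countable ideal independent family is either finite and maximal, or is contained in a
maximal ideal independent family of cardinality `ℵ₁`. In particular every countably infinite ideal
independent family is contained in a maximal one of cardinality `ℵ₁`, the least cardinality
possible (an infinite maximal family is never countable). -/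
theorem result (hd : dNumber = ℵ₁) (hu : uNumber = ℵ₁) :
    smm = ℵ₁ ∧
    (∀ I₀ : Set (Set ℕ), I₀.Countable → IdealIndependent I₀ →
      (I₀.Finite ∧ MaximalIdealIndependent I₀) ∨
        ∃ I : Set (Set ℕ), I₀ ⊆ I ∧ MaximalIdealIndependent I ∧ #I = ℵ₁) ∧
    (∀ I₀ : Set (Set ℕ), I₀.Countable → I₀.Infinite → IdealIndependent I₀ →
      ∃ I : Set (Set ℕ), I₀ ⊆ I ∧ MaximalIdealIndependent I ∧ #I = ℵ₁) ∧
    ∀ I : Set (Set ℕ), I.Infinite → MaximalIdealIndependent I → ℵ₁ ≤ #I := by
  have hlow : ∀ I : Set (Set ℕ), I.Infinite → MaximalIdealIndependent I → ℵ₁ ≤ #I := by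
    intro I hI hm
    rw [← Cardinal.succ_aleph0, Order.succ_le_iff]
    by_contra hcon
    rw [not_lt, Cardinal.le_aleph0_iff_set_countable] at hcon
    exact Pool.Agent.W635.Smm.not_countable hI hcon hm
  have hext : ∀ I₀ : Set (Set ℕ), I₀.Countable → I₀.Infinite → IdealIndependent I₀ →
      ∃ I : Set (Set ℕ), I₀ ⊆ I ∧ MaximalIdealIndependent I ∧ #I = ℵ₁ :=
    fun I₀ hc hi hI => Pool.Agent.Y375.MI.extension hd hu hI hc hi
  have hdi : ∀ I₀ : Set (Set ℕ), I₀.Countable → IdealIndependent I₀ →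
      (I₀.Finite ∧ MaximalIdealIndependent I₀) ∨
        ∃ I : Set (Set ℕ), I₀ ⊆ I ∧ MaximalIdealIndependent I ∧ #I = ℵ₁ :=
    fun I₀ hc hI => Pool.Agent.Y375.MI.dichotomy hd hu hI hc
  refine ⟨?_, hdi, hext, hlow⟩
  have h0 : IdealIndependent (∅ : Set (Set ℕ)) :=
    ⟨fun A hA => absurd hA (notMem_empty A), fun A hA => absurd hA (notMem_empty A)⟩
  have hℵ : (ℵ₀ : Cardinal.{0}) ≤ ℵ₁ := Cardinal.aleph0_le_aleph 1
  have hnm : ¬ MaximalIdealIndependent (∅ : Set (Set ℕ)) := by
    rintro ⟨_, h⟩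
    have h1 : IdealIndependent {(Set.univ : Set ℕ)} := by
      refine ⟨?_, ?_⟩
      · rintro A hA
        rw [mem_singleton_iff.1 hA]
        exact infinite_univ
      · rintro A hA F _ hFs
        rw [mem_singleton_iff.1 hA] at hFs ⊢
        have h2 : F = ∅ := by
          rw [Set.eq_empty_iff_forall_notMem]
          intro B hB
          exact (hFs hB).2 (hFs hB).1
        rw [h2, sUnion_empty, sdiff_empty]
        exact infinite_univ
    have h3 := h _ h1 (empty_subset _)
    exact absurd h3 (singleton_ne_empty _)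
  rcases hdi ∅ countable_empty h0 with ⟨_, h⟩ | ⟨I, _, hI, hIc⟩
  · exact absurd h hnm
  · have hIinf : I.Infinite := by
      rw [← Set.infinite_coe_iff, Cardinal.infinite_iff, hIc]
      exact hℵ
    apply le_antisymm
    · exact csInf_le' ⟨I, hIinf, hI, hIc⟩
    · refine le_csInf ⟨ℵ₁, I, hIinf, hI, hIc⟩ ?_
      rintro κ ⟨J, hJinf, hJ, rfl⟩
      exact hlow J hJinf hJ

end Pool.Agent.Results.MP_5eed22_lc.ExtensionOfCountable
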